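import Pool.Agent.H28.BF.All
import Pool.Agent.H28.BR.All

set_option autoImplicit false

/-!
# Non-vanishing of quadratic twists along polynomial rotations and Beatty sequences
-/

namespace Pool.Agent.Results.MP_17f4cb_nt.PolynomialRotations

open Finset Filter Topology Polynomial

noncomputable section

/-- `D` is the discriminant of a quadratic field -/
def Fund (D : ℤ) : Prop :=
  D ≠ 1 ∧ ((D % 4 = 1 ∧ Squarefree D) ∨ ∃ k : ℤ, D = 4 * k ∧ (k % 4 = 2 ∨ k % 4 = 3) ∧ Squarefree k)

/-- the series `∑ lam n (D / n) n ^ (-s)` over the odd `n` (the twist by the field of discriminant `D`, without the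
Euler factors at the primes dividing `2 D`) continues to an entire function which does not vanish at `1 / 2` -/
def NonVanishing (lam : ℕ → ℂ) (D : ℤ) : Prop :=
  ∃ F : ℂ → ℂ, Differentiable ℂ F ∧
    (∀ s : ℂ, 2 < s.re → F s = ∑' n : ℕ, if n % 2 = 1 then lam n * (jacobiSym D n : ℂ) * (n : ℂ) ^ (-s) else 0) ∧
    F (1 / 2) ≠ 0

open Classical in
/-- the number of the quadratic fields with discriminant `Δ` in `S`, `|Δ| ≤ X` and `A |Δ|` -/
def fields (S : Set ℤ) (A : ℕ → Prop) (X : ℕ) : ℕ :=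
  ((Icc (-(X : ℤ)) X).filter (fun D : ℤ => (Fund D ∧ D ∈ S) ∧ A D.natAbs)).card

open Classical in
/-- the number of those of them with non-vanishing twist -/
def nonvanishing (lam : ℕ → ℂ) (S : Set ℤ) (A : ℕ → Prop) (X : ℕ) : ℕ :=
  ((Icc (-(X : ℤ)) X).filter (fun D : ℤ => (Fund D ∧ D ∈ S ∧ NonVanishing lam D) ∧ A D.natAbs)).card

/-- the proportion of the fields with non-vanishing twist among the quadratic fields with discriminant `Δ` in `S`,
`|Δ| ≤ X` and `A |Δ|` -/
def ratio (lam : ℕ → ℂ) (S : Set ℤ) (A : ℕ → Prop) (X : ℕ) : ℝ :=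
  (nonvanishing lam S A X : ℝ) / fields S A X

/-- comparison of two ratios -/
theorem ratio_sub (A F A' F' x v c δ ε : ℝ) (hx : 0 < x) (hv : 0 < v) (hc : 0 < c) (hε : 0 < ε)
    (g1 : c * x ≤ F) (hA0 : 0 ≤ A) (hAF : A ≤ F) (hδ0 : 0 < δ) (h1 : δ ≤ v * c / 2) (h2 : δ ≤ ε * (v * c) / 8)
    (g2 : |A' - v * A| ≤ δ * x) (g3 : |F' - v * F| ≤ δ * x) : |A' / F' - A / F| < ε := by
  have hF0 : 0 < F := lt_of_lt_of_le (by positivity) g1
  have hF'1 : v * c / 2 * x ≤ F' := by
    have := (abs_le.1 g3).1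
    nlinarith [mul_le_mul_of_nonneg_left g1 hv.le, mul_le_mul_of_nonneg_right h1 hx.le]
  have hF'0 : 0 < F' := lt_of_lt_of_le (by positivity) hF'1
  have e1 : A' / F' - A / F = ((A' - v * A) * F - A * (F' - v * F)) / (F' * F) := by
    field_simp
    ring
  rw [e1, abs_div, abs_of_pos (mul_pos hF'0 hF0), div_lt_iff₀ (mul_pos hF'0 hF0)]
  have h3 : |(A' - v * A) * F - A * (F' - v * F)| ≤ δ * x * F + F * (δ * x) := by
    refine (abs_sub _ _).trans ?_
    rw [abs_mul, abs_mul, abs_of_pos hF0, abs_of_nonneg hA0]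
    apply add_le_add
    · exact mul_le_mul_of_nonneg_right g2 hF0.le
    · exact mul_le_mul hAF g3 (abs_nonneg _) hF0.le
  refine lt_of_le_of_lt h3 ?_
  have h4 : 2 * (δ * x) < ε * F' := by
    calc 2 * (δ * x) ≤ 2 * (ε * (v * c) / 8 * x) := by
          apply mul_le_mul_of_nonneg_left _ (by norm_num)
          exact mul_le_mul_of_nonneg_right h2 hx.le
      _ < ε * (v * c / 2 * x) := by nlinarith [mul_pos (mul_pos hε (mul_pos hv hc)) hx]
      _ ≤ ε * F' := mul_le_mul_of_nonneg_left hF'1 hε.le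
  nlinarith [mul_lt_mul_of_pos_right h4 hF0]

/-- there are many quadratic fields -/
theorem many : ∀ᶠ X : ℕ in atTop, 1 / 12 * (X : ℝ) ≤ fields Set.univ (fun _ => True) X := by
  filter_upwards [eventually_ge_atTop 6] with X hX
  have h1 := Pool.Agent.X20.Tr.card_sqf X hX
  have h2 : ((Icc 1 X).filter (fun m => m % 4 = 3 ∧ Squarefree m)).card ≤ fields Set.univ (fun _ => True) X := by
    unfold fields
    apply Finset.card_le_card_of_injOn (fun m : ℕ => -(m : ℤ))
    · intro m hm
      simp only [coe_filter, mem_Icc, Set.mem_ofPred_eq] at hm ⊢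
      refine ⟨⟨by omega, by omega⟩, ⟨⟨by omega, Or.inl ⟨by omega, ?_⟩⟩, Set.mem_univ _⟩, trivial⟩
      rw [← Int.squarefree_natAbs]
      simpa using hm.2.2
    · intro a _ b _ h
      simpa using h
  have h3 : (((Icc 1 X).filter (fun m => m % 4 = 3 ∧ Squarefree m)).card : ℝ) ≤ fields Set.univ (fun _ => True) X := by
    exact_mod_cast h2
  linarith

/-- **Non-vanishing of quadratic twists along polynomial rotations and Beatty sequences.**

For all sequences `Λ 0, Λ 1, …` of coefficient sequences and `S 0, S 1, …` of sets of discriminants (for example all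
quadratic fields, the imaginary ones, those with a given root number) there is a set `E` of real numbers of Hausdorff
dimension zero such that for every real `α` outside `E` and every `k`:

1. the quadratic fields in `S k` with non-vanishing twist of `Λ k` are equidistributed modulo one along `P(|Δ|)` for all
   real polynomials `P` of degree at most `D` with `D`-th coefficient `α`, uniformly in `P` and in the arc;
2. if the fields in `S k` have positive lower density, the proportion of them with non-vanishing twist, ordered by `|Δ|`,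
   has the same limit points among the fields with `fract P(|Δ|) < v`: the difference of the proportions tends to zero,
   uniformly in `P`;
3. the same along the fields with `|Δ|` in the Beatty sequence `⌊α m + β⌋`, uniformly in `β`.

For `S k = ℤ` the lower density is positive (first line), and Q1 is the statement that the proportion tends to `1 / 2`. -/
theorem result :
    (∀ᶠ X : ℕ in atTop, 1 / 12 * (X : ℝ) ≤ fields Set.univ (fun _ => True) X) ∧
    ∀ (Λ : ℕ → ℕ → ℂ) (S : ℕ → Set ℤ), ∃ E : Set ℝ, dimH E = 0 ∧ ∀ α : ℝ, α ∉ E → Irrational α ∧ ∀ k : ℕ,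
    -- 1. the non-vanishing twists are equidistributed along polynomials, uniformly in the polynomial and the arc
    (∀ D : ℕ, 1 ≤ D → ∀ δ : ℝ, 0 < δ → ∀ᶠ X : ℕ in atTop,
      ∀ P : ℝ[X], P.natDegree ≤ D → P.coeff D = α → ∀ v : ℝ, 0 ≤ v → v ≤ 1 →
      |(nonvanishing (Λ k) (S k) (fun n : ℕ => Int.fract (P.eval (n : ℝ)) < v) X : ℝ) -
        v * nonvanishing (Λ k) (S k) (fun _ => True) X| ≤ δ * X) ∧
    -- if the fields in `S k` have positive lower density
    ((∃ c : ℝ, 0 < c ∧ ∀ᶠ X : ℕ in atTop, c * X ≤ fields (S k) (fun _ => True) X) →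
      -- 2. the proportion is the same along every polynomial and every arc, uniformly in the polynomial
      (∀ D : ℕ, 1 ≤ D → ∀ v : ℝ, 0 < v → v ≤ 1 → ∀ ε : ℝ, 0 < ε → ∀ᶠ X : ℕ in atTop,
        ∀ P : ℝ[X], P.natDegree ≤ D → P.coeff D = α →
        |ratio (Λ k) (S k) (fun n : ℕ => Int.fract (P.eval (n : ℝ)) < v) X -
          ratio (Λ k) (S k) (fun _ => True) X| < ε) ∧
      -- 3. the proportion is the same along every Beatty sequence, uniformly in `β`
      (1 < α → ∀ ε : ℝ, 0 < ε → ∀ᶠ X : ℕ in atTop, ∀ β : ℝ,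
        |ratio (Λ k) (S k) (fun n => ∃ m : ℤ, ⌊α * m + β⌋ = (n : ℤ)) X -
          ratio (Λ k) (S k) (fun _ => True) X| < ε)) := by
  classical
  refine ⟨many, ?_⟩
  intro Λ S
  -- the weights
  set G : ℕ → ℤ → Prop := fun k D => if k % 2 = 0 then Fund D ∧ D ∈ S (k / 2) else
    Fund D ∧ D ∈ S (k / 2) ∧ NonVanishing (Λ (k / 2)) D with hG
  set w : ℕ → ℕ → ℝ := fun k n => ((if G k n then 1 else 0) + (if G k (-(n : ℤ)) then 1 else 0)) / 2 with hw
  have hw01 : ∀ k n, 0 ≤ w k n ∧ w k n ≤ 1 := by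
    intro k n
    simp only [hw]
    split_ifs <;> norm_num
  have h0 : ∀ k, ¬ G k 0 := by
    intro k
    simp only [hG]
    have hF0 : ¬ Fund 0 := by
      rintro ⟨_, h | ⟨j, hj, hj4, _⟩⟩
      · exact absurd h.1 (by norm_num)
      · omega
    split_ifs
    · exact fun h => hF0 h.1
    · exact fun h => hF0 h.1
  -- counting
  have hcount : ∀ (k : ℕ) (A : ℕ → Prop) (iA : DecidablePred A) (X : ℕ)
      (iG : DecidablePred (fun D : ℤ => G k D ∧ A D.natAbs)),
      (((Icc (-(X : ℤ)) X).filter (fun D : ℤ => G k D ∧ A D.natAbs)).card : ℝ) =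
        2 * ∑ n ∈ (Ioc 0 X).filter A, w k n := by
    intro k A iA X iG
    have e1 : (Icc (-(X : ℤ)) X).filter (fun D : ℤ => G k D ∧ A D.natAbs) =
        (((Ioc 0 X).filter (fun n => A n ∧ G k (n : ℤ))).image (fun n : ℕ => (n : ℤ))) ∪
        (((Ioc 0 X).filter (fun n => A n ∧ G k (-(n : ℤ)))).image (fun n : ℕ => -(n : ℤ))) := by
      ext D
      simp only [mem_filter, mem_Icc, mem_union, mem_image, mem_Ioc]
      constructor
      · rintro ⟨⟨h1, h2⟩, h3, h4⟩
        have hD0 : D ≠ 0 := by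
          rintro rfl
          exact h0 k h3
        rcases lt_or_gt_of_ne hD0 with h5 | h5
        · right
          refine ⟨D.natAbs, ⟨⟨by omega, by omega⟩, h4, ?_⟩, by omega⟩
          have : -((D.natAbs : ℕ) : ℤ) = D := by omega
          rw [this]
          exact h3
        · left
          refine ⟨D.natAbs, ⟨⟨by omega, by omega⟩, h4, ?_⟩, by omega⟩
          have : ((D.natAbs : ℕ) : ℤ) = D := by omega
          rw [this]
          exact h3
      · rintro (⟨n, ⟨⟨h1, h2⟩, h3, h4⟩, rfl⟩ | ⟨n, ⟨⟨h1, h2⟩, h3, h4⟩, rfl⟩)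
        · exact ⟨⟨by omega, by omega⟩, h4, by simpa using h3⟩
        · exact ⟨⟨by omega, by omega⟩, h4, by simpa using h3⟩
    rw [e1, Finset.card_union_of_disjoint, Finset.card_image_of_injective, Finset.card_image_of_injective]
    · rw [← Finset.filter_filter, ← Finset.filter_filter, Finset.card_filter (fun n : ℕ => G k (n : ℤ)),
        Finset.card_filter (fun n : ℕ => G k (-(n : ℤ)))]
      push_cast
      rw [← Finset.sum_add_distrib, Finset.mul_sum]
      apply Finset.sum_congr rfl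
      intro n _
      simp only [hw]
      ring
    · intro a b h
      simpa using h
    · intro a b h
      simpa using h
    · rw [Finset.disjoint_left]
      rintro D h1 h2
      simp only [mem_image, mem_filter, mem_Ioc] at h1 h2
      obtain ⟨n, ⟨⟨h3, _⟩, _⟩, rfl⟩ := h1
      obtain ⟨m, ⟨⟨h4, _⟩, _⟩, h5⟩ := h2
      omega
  have hcount2 : ∀ (H : ℤ → Prop) (k : ℕ) (_ : G k = H) (A : ℕ → Prop) (iA : DecidablePred A) (X : ℕ)
      (iG : DecidablePred (fun D : ℤ => H D ∧ A D.natAbs)),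
      (((Icc (-(X : ℤ)) X).filter (fun D : ℤ => H D ∧ A D.natAbs)).card : ℝ) =
        2 * ∑ n ∈ (Ioc 0 X).filter A, w k n := by
    rintro H k rfl A iA X iG
    exact hcount k A iA X iG
  have hfields : ∀ (k : ℕ) (A : ℕ → Prop) (iA : DecidablePred A) (X : ℕ),
      (fields (S k) A X : ℝ) = 2 * ∑ n ∈ (Ioc 0 X).filter A, w (2 * k) n := by
    intro k A iA X
    have h1 : G (2 * k) = fun D => Fund D ∧ D ∈ S k := by
      funext D
      simp only [hG]
      rw [if_pos (by omega), show 2 * k / 2 = k by omega]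
    exact hcount2 _ (2 * k) h1 A iA X _
  have hnv : ∀ (k : ℕ) (A : ℕ → Prop) (iA : DecidablePred A) (X : ℕ),
      (nonvanishing (Λ k) (S k) A X : ℝ) = 2 * ∑ n ∈ (Ioc 0 X).filter A, w (2 * k + 1) n := by
    intro k A iA X
    have h1 : G (2 * k + 1) = fun D => Fund D ∧ D ∈ S k ∧ NonVanishing (Λ k) D := by
      funext D
      simp only [hG]
      rw [if_neg (by omega), show (2 * k + 1) / 2 = k by omega]
    exact hcount2 _ (2 * k + 1) h1 A iA X _
  have hle : ∀ (k : ℕ) (A : ℕ → Prop) (X : ℕ),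
      (nonvanishing (Λ k) (S k) A X : ℝ) ≤ fields (S k) A X := by
    intro k A X
    unfold nonvanishing fields
    exact_mod_cast Finset.card_le_card (fun D hD => by
      rw [mem_filter] at hD ⊢
      exact ⟨hD.1, ⟨hD.2.1.1, hD.2.1.2.1⟩, hD.2.2⟩)
  obtain ⟨E, hE, hirr, heq⟩ := Pool.Agent.H28.BF.eqd w hw01
  -- the uniform statement in terms of counts
  have harc : ∀ α : ℝ, α ∉ E → ∀ k D : ℕ, 1 ≤ D → ∀ δ : ℝ, 0 < δ → ∀ᶠ X : ℕ in atTop,
      ∀ P : ℝ[X], P.natDegree ≤ D → P.coeff D = α → ∀ v : ℝ, 0 ≤ v → v ≤ 1 →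
      |2 * ∑ n ∈ (Ioc 0 X).filter (fun n : ℕ => Int.fract (P.eval (n : ℝ)) < v), w k n -
        v * (2 * ∑ n ∈ (Ioc 0 X).filter (fun _ : ℕ => True), w k n)| ≤ δ * X := by
    intro α hα k D hD δ hδ
    filter_upwards [heq α hα k D 1 0 hD le_rfl (δ / 2) (by positivity)] with X hX P h1 h2 v hv hv1
    have h3 := hX P h1 h2 v hv hv1
    simp only [Nat.mod_one, true_and] at h3
    rw [show 2 * ∑ n ∈ (Ioc 0 X).filter (fun n : ℕ => Int.fract (P.eval (n : ℝ)) < v), w k n -
        v * (2 * ∑ n ∈ (Ioc 0 X).filter (fun _ : ℕ => True), w k n) =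
        2 * (∑ n ∈ (Ioc 0 X).filter (fun n : ℕ => Int.fract (P.eval (n : ℝ)) < v), w k n -
        v * ∑ n ∈ (Ioc 0 X).filter (fun _ : ℕ => True), w k n) by ring,
      abs_mul, abs_of_pos (by norm_num : (0 : ℝ) < 2)]
    have h4 : |∑ n ∈ (Ioc 0 X).filter (fun n : ℕ => Int.fract (P.eval (n : ℝ)) < v), w k n -
        v * ∑ n ∈ (Ioc 0 X).filter (fun _ : ℕ => True), w k n| ≤ δ / 2 * X := by
      convert h3 using 6
    linarith
  have hrat : ∀ α : ℝ, α ∉ E → ∀ k : ℕ,
      (∃ c : ℝ, 0 < c ∧ ∀ᶠ X : ℕ in atTop, c * X ≤ fields (S k) (fun _ => True) X) →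
      ∀ D : ℕ, 1 ≤ D → ∀ v : ℝ, 0 < v → v ≤ 1 → ∀ ε : ℝ, 0 < ε → ∀ᶠ X : ℕ in atTop,
      ∀ P : ℝ[X], P.natDegree ≤ D → P.coeff D = α →
      |ratio (Λ k) (S k) (fun n : ℕ => Int.fract (P.eval (n : ℝ)) < v) X -
        ratio (Λ k) (S k) (fun _ => True) X| < ε := by
    rintro α hα k ⟨c, hc, hmany⟩ D hD v hv hv1 ε hε
    set δ : ℝ := min (v * c / 2) (ε * (v * c) / 8) with hδ
    have hδ0 : 0 < δ := by positivity
    filter_upwards [harc α hα (2 * k) D hD δ hδ0, harc α hα (2 * k + 1) D hD δ hδ0, hmany,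
      eventually_ge_atTop 1] with X h1 h2 h3 h4 P hP1 hP2
    have h5 := h1 P hP1 hP2 v hv.le hv1
    have h6 := h2 P hP1 hP2 v hv.le hv1
    rw [← hfields k _ inferInstance, ← hfields k _ inferInstance] at h5
    rw [← hnv k _ inferInstance, ← hnv k _ inferInstance] at h6
    unfold ratio
    exact ratio_sub _ _ _ _ X v c δ ε (by exact_mod_cast h4) hv hc hε h3 (Nat.cast_nonneg _) (hle k _ X) hδ0
      (min_le_left _ _) (min_le_right _ _) h6 h5
  refine ⟨E ∪ {α : ℝ | 1 < α ∧ -(1 / α) ∈ E}, ?_, ?_⟩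
  · rw [dimH_union, hE, Pool.Agent.H28.BF.dimH_inv E hE, max_self]
  · intro α hα
    rw [Set.mem_union, not_or] at hα
    obtain ⟨hα1, hα2⟩ := hα
    refine ⟨?_, fun k => ⟨?_, fun hk => ⟨hrat α hα1 k hk, ?_⟩⟩⟩
    · by_contra h
      exact hα1 (hirr α h)
    · intro D hD δ hδ
      filter_upwards [harc α hα1 (2 * k + 1) D hD δ hδ] with X hX P h1 h2 v hv hv1
      have h3 := hX P h1 h2 v hv hv1
      rw [← hnv k _ inferInstance, ← hnv k _ inferInstance] at h3
      exact h3
    · intro hα3 ε hε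
      have hα0 : 0 < α := by linarith
      have hE' : -(1 / α) ∉ E := fun h => hα2 ⟨hα3, h⟩
      filter_upwards [hrat (-(1 / α)) hE' k hk 1 le_rfl (1 / α) (by positivity)
        (by rw [div_le_one hα0]; exact hα3.le) ε hε] with N hX β
      have h4 := hX (C (-(1 / α)) * X + C (β / α)) (by compute_degree) (by simp)
      have e2 : (fun n : ℕ => Int.fract ((C (-(1 / α)) * X + C (β / α) : ℝ[X]).eval (n : ℝ)) < 1 / α) =
          fun n : ℕ => ∃ m : ℤ, ⌊α * m + β⌋ = (n : ℤ) := by
        funext n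
        rw [eq_iff_iff]
        have h5 := Pool.Agent.H28.BR.bty α β n hα3
        simp only [eval_add, eval_mul, eval_C, eval_X]
        exact h5.symm
      rw [e2] at h4
      exact h4

end

end Pool.Agent.Results.MP_17f4cb_nt.PolynomialRotations
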